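import Pool.Agent.Helper41.RC.Block

/-!
# Jordan blocks of semilinear and linear maps
-/

set_option autoImplicit false

open Module

namespace Pool.Agent.Helper41.RX

open Pool.Agent.Helper41.RC

section

variable {E L V : Type} [Field E] [Field L] [Algebra E L] [AddCommGroup V] [Module L V] {d : ℕ}

/-- The eigenvector of a Jordan block of size two is rational and isotropic. -/
theorem block [CharZero L] (σ : E ≃+* E) (b : Basis (Fin d) L V) (T : End L V)
    (B : LinearMap.BilinForm L V) {Q : L} (hQ : Q ≠ 0) (hT : ∀ x y, B (T x) (T y) = Q * B x y)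
    (hTr : ∀ c : Fin d → E, ∃ c', T (vec b c) = vec b c' ∧
      T (vec b fun i => σ (c i)) = vec b fun i => σ (c' i))
    (W : Submodule L V) (hW : W ≤ Submodule.span L {x | x ∈ W ∧ ∃ c : Fin d → E, x = vec b c})
    (hdim : finrank L W ≤ 2) [FiniteDimensional L W] (hTW : ∀ x ∈ W, T x ∈ W) {x : V} (hx : x ∈ W)
    {c : L} (h1 : T (T x - c • x) = c • (T x - c • x)) (h2 : T x - c • x ≠ 0) :
    ∃ (e v : Fin d → E) (c0 : E), vec b e ∈ W ∧ vec b v ∈ W ∧
      LinearIndependent L ![vec b e, vec b v] ∧
      B (vec b v) (vec b fun i => σ (v i)) = 0 ∧ algebraMap E L c0 = c ∧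
      T (vec b v) = c • vec b v ∧ (T (vec b fun i => σ (v i)) =
        algebraMap E L (σ c0) • vec b fun i => σ (v i)) ∧
      ∀ y ∈ W, T y = c • y → ∃ β : L, y = β • vec b v := by
  -- the vectors `x` and `T x - c x` are independent
  have hpair : ∀ y : V, T (T y - c • y) = c • (T y - c • y) → T y - c • y ≠ 0 →
      LinearIndependent L ![y, T y - c • y] := by
    intro y hy1 hy2
    rw [LinearIndependent.pair_iff]
    intro α β h
    have h3 : T (α • y + β • (T y - c • y)) - c • (α • y + β • (T y - c • y)) = 0 := by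
      rw [h]
      simp
    have h4 : T (α • y + β • (T y - c • y)) - c • (α • y + β • (T y - c • y)) =
        α • (T y - c • y) := by
      rw [map_add, map_smul, map_smul, hy1]
      module
    rw [h4] at h3
    have h5 : α = 0 := (smul_eq_zero.1 h3).resolve_right hy2
    rw [h5, zero_smul, zero_add] at h
    exact ⟨h5, (smul_eq_zero.1 h).resolve_right hy2⟩
  have hind := hpair x h1 h2
  have hxW : T x - c • x ∈ W := W.sub_mem (hTW x hx) (W.smul_mem c hx)
  -- they span `W`
  have hspan : ∀ y ∈ W, ∃ α β : L, y = α • x + β • (T x - c • x) := by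
    intro y hy
    have h3 : LinearIndependent L ![(⟨x, hx⟩ : W), ⟨T x - c • x, hxW⟩] := by
      rw [LinearIndependent.pair_iff] at hind ⊢
      intro α β h
      exact hind α β (congrArg Subtype.val h)
    have h4 : finrank L W = 2 := le_antisymm hdim (by
      have := h3.fintype_card_le_finrank
      simpa using this)
    have h5 := h3.span_eq_top_of_card_eq_finrank (by simp [h4])
    have h6 : (⟨y, hy⟩ : W) ∈ Submodule.span L (Set.range ![(⟨x, hx⟩ : W), ⟨T x - c • x, hxW⟩]) := by
      rw [h5]
      exact Submodule.mem_top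
    have h7 : Set.range ![(⟨x, hx⟩ : W), ⟨T x - c • x, hxW⟩] = {⟨x, hx⟩, ⟨T x - c • x, hxW⟩} := by
      rw [Matrix.range_cons, Matrix.range_cons, Matrix.range_empty, Set.union_empty]
      rfl
    rw [h7, Submodule.mem_span_pair] at h6
    obtain ⟨α, β, h8⟩ := h6
    exact ⟨α, β, (congrArg Subtype.val h8).symm⟩
  -- `(T - c) ^ 2 = 0` on `W`
  have hsq : ∀ y ∈ W, T (T y - c • y) = c • (T y - c • y) := by
    intro y hy
    obtain ⟨α, β, rfl⟩ := hspan y hy
    have h3 : T (α • x + β • (T x - c • x)) - c • (α • x + β • (T x - c • x)) =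
        α • (T x - c • x) := by
      rw [map_add, map_smul, map_smul, h1]
      module
    rw [h3, map_smul, h1, smul_comm]
  -- a rational vector on which `T - c` is not zero
  obtain ⟨e, he, hne⟩ : ∃ e : Fin d → E, vec b e ∈ W ∧ T (vec b e) - c • vec b e ≠ 0 := by
    by_contra hcon
    push Not at hcon
    apply h2
    have h3 : W ≤ LinearMap.ker (T - c • (1 : End L V)) := by
      refine hW.trans (Submodule.span_le.2 ?_)
      rintro y ⟨hy, e, rfl⟩
      rw [SetLike.mem_coe, LinearMap.mem_ker]
      exact hcon e hy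
    exact LinearMap.mem_ker.1 (h3 hx)
  obtain ⟨f, hf1, hf2⟩ := hTr e
  obtain ⟨g, hg1, hg2⟩ := hTr f
  -- `c` is rational
  have hef : LinearIndependent L ![vec b e, vec b f] := by
    have h3 := hpair _ (hsq _ he) hne
    rw [hf1] at h3
    rw [LinearIndependent.pair_iff] at h3 ⊢
    intro α β h
    have h4 := h3 (α + β * c) β (by
      rw [← h]
      module)
    refine ⟨?_, h4.2⟩
    rw [h4.2, zero_mul, add_zero] at h4
    exact h4.1
  have hrel : vec b g = (-(c * c)) • vec b e + (2 * c) • vec b f := by
    have h3 := hsq _ he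
    rw [hf1, map_sub, map_smul, hg1, hf1] at h3
    rw [sub_eq_iff_eq_add] at h3
    rw [h3]
    module
  obtain ⟨-, y, hy⟩ := descent b g e f _ _ hef hrel
  obtain ⟨c0, hc0⟩ : ∃ c0 : E, algebraMap E L c0 = c := by
    have : CharZero E := (algebraMap E L).charZero
    refine ⟨y / 2, ?_⟩
    rw [map_div₀, hy, map_ofNat]
    field_simp
  have key : B (vec b (f - c0 • e)) (vec b fun i => σ ((f - c0 • e) i)) = 0 ∧
      T (vec b (f - c0 • e)) = c • vec b (f - c0 • e) ∧
      (T (vec b fun i => σ ((f - c0 • e) i)) =
        algebraMap E L (σ c0) • vec b fun i => σ ((f - c0 • e) i)) := by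
    -- isotropy
    set v := vec b (f - c0 • e) with hv
    set v' := vec b (fun i => σ ((f - c0 • e) i)) with hv'
    have e1 : v = T (vec b e) - c • vec b e := by rw [hv, vec_sub_smul, hc0, hf1]
    have e2 : v' = vec b (fun i => σ (f i)) - algebraMap E L (σ c0) • vec b (fun i => σ (e i)) := by
      rw [hv', ← vec_sub_smul]
      congr 1
      funext i
      simp
    have t1 : T v = c • v := by rw [e1]; exact hsq _ he
    -- the conjugate relation
    have hgf : ∀ i, g i = -(c0 * c0) * e i + 2 * c0 * f i := by
      intro i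
      have h3 := congrArg (fun v => b.repr v i) hrel
      simp only [map_add, map_smul, Finsupp.add_apply, Finsupp.smul_apply, repr_vec,
        smul_eq_mul] at h3
      apply (algebraMap E L).injective
      rw [h3, ← hc0]
      simp only [map_add, map_mul, map_neg, map_ofNat]
    have t2 : T v' = algebraMap E L (σ c0) • v' := by
      rw [e2, map_sub, map_smul, hg2, hf2]
      have h3 : vec b (fun i => σ (g i)) =
          (-(algebraMap E L (σ c0) * algebraMap E L (σ c0))) • vec b (fun i => σ (e i)) +
          (2 * algebraMap E L (σ c0)) • vec b (fun i => σ (f i)) := by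
        apply b.repr.injective
        ext i
        rw [map_add, map_smul, map_smul, Finsupp.add_apply, Finsupp.smul_apply,
          Finsupp.smul_apply, repr_vec, repr_vec, repr_vec, hgf]
        simp only [map_add, map_mul, map_neg, map_ofNat, smul_eq_mul]
      rw [h3]
      module
    refine ⟨?_, t1, t2⟩
    by_contra hvv
    have s1 := hT v v'
    rw [t1, t2] at s1
    simp only [map_smul, LinearMap.smul_apply, smul_eq_mul] at s1
    have s2 := hT (vec b e) v'
    have e3 : T (vec b e) = c • vec b e + v := by rw [e1]; module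
    rw [e3, t2] at s2
    simp only [map_smul, map_add, LinearMap.smul_apply, LinearMap.add_apply, smul_eq_mul] at s2
    have s3 : c * algebraMap E L (σ c0) = Q := by
      apply mul_right_cancel₀ hvv
      linear_combination s1
    have s4 : algebraMap E L (σ c0) * B v v' = 0 := by
      linear_combination s2 - B (vec b e) v' * s3
    rcases mul_eq_zero.1 s4 with h | h
    · rw [h, mul_zero] at s3
      exact hQ s3.symm
    · exact hvv h
  -- the eigenvector
  refine ⟨e, f - c0 • e, c0, he, ?_, ?_, key.1, hc0, key.2.1, key.2.2, ?_⟩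
  · rw [vec_sub_smul, hc0, ← hf1]
    exact W.sub_mem (hTW _ he) (W.smul_mem _ he)
  · rw [vec_sub_smul, hc0, ← hf1]
    exact hpair _ (hsq _ he) hne
  · intro y hy hTy
    obtain ⟨α, β, rfl⟩ := hspan y hy
    have h3 : T (α • x + β • (T x - c • x)) - c • (α • x + β • (T x - c • x)) =
        α • (T x - c • x) := by
      rw [map_add, map_smul, map_smul, h1]
      module
    rw [hTy, sub_self] at h3
    have h4 : α = 0 := (smul_eq_zero.1 h3.symm).resolve_right h2
    rw [h4, zero_smul, zero_add]
    -- `T x - c x` is a multiple of the eigenvector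
    obtain ⟨γ, δ, h5⟩ := hspan _ he
    have h6 : T (vec b e) - c • vec b e = γ • (T x - c • x) := by
      rw [h5, map_add, map_smul, map_smul, h1]
      module
    have h7 : γ ≠ 0 := by
      rintro rfl
      apply hne
      rw [h6, zero_smul]
    refine ⟨β * γ⁻¹, ?_⟩
    rw [vec_sub_smul, hc0, ← hf1, h6, smul_smul, mul_assoc, inv_mul_cancel₀ h7, mul_one]

end

end Pool.Agent.Helper41.RX
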