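import Pool.Agent.Helper41.RC.Field

/-!
# Norms from a ramified extension
-/

set_option autoImplicit false

open Finset

namespace Pool.Agent.Helper41.RX

/-- A field with an involution, a primitive `n`-th root of unity `ζ` and a discrete valuation ring
`O` stable under the involution with uniformiser `1 - ζ ^ c` and residue field with `r`
elements. -/
structure RField (r c n : ℕ) (E : Type) [Field E] where
  /-- the involution -/
  σ : E ≃+* E
  invol : ∀ x, σ (σ x) = x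
  /-- the root of unity -/
  ζ : E
  prim : IsPrimitiveRoot ζ n
  σ_ζ : σ ζ = ζ⁻¹
  /-- the ring of integers -/
  O : Subring E
  σ_mem : ∀ x ∈ O, σ x ∈ O
  ζ_mem : ζ ∈ O
  /-- the residue map -/
  res : O →+* ZMod r
  ker : ∀ x : O, res x = 0 ↔ ∃ y ∈ O, (x : E) = (1 - ζ ^ c) * y
  dvr : ∀ x : E, x ≠ 0 → ∃ (m : ℤ) (u : E), u ∈ O ∧ u⁻¹ ∈ O ∧ x = (1 - ζ ^ c) ^ m * u

/-- the same field with the root of unity `ζ ^ c` -/
def RField.base {r c n k : ℕ} {E : Type} [Field E] (F : RField r c n E) (hn : n = c * r ^ k)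
    (hn0 : 0 < n) : RC.RField r (r ^ k) E where
  σ := F.σ
  invol := F.invol
  ζ := F.ζ ^ c
  prim := F.prim.pow hn0 hn
  σ_ζ := by rw [map_pow, F.σ_ζ, inv_pow]
  O := F.O
  σ_mem := F.σ_mem
  ζ_mem := F.O.pow_mem F.ζ_mem c
  res := F.res
  ker := F.ker
  dvr := F.dvr

end Pool.Agent.Helper41.RX

namespace Pool.Agent.Helper41.RC.RField

variable {r n : ℕ} {E : Type} [Field E] (F : RField r n E)

/-- If minus the product of an even number of `1 - ζ ^ a`, `a` prime to `r`, and of a unit is a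
norm, then a product of the `a` and of the residue of the unit is a square up to a sign. -/
theorem isSquare_of_norm' [Fact r.Prime] (hn : 1 < n) {ι : Type} [Fintype ι] {s : ℕ}
    (hs : Fintype.card ι = 2 * s) (a : ι → ℕ) (ha : ∀ D, ((a D : ℕ) : ZMod r) ≠ 0) (Q : F.O)
    (hQ : F.res Q ≠ 0) (b : E) (hb : b * F.σ b = -((∏ D, (1 - F.ζ ^ a D)) * Q)) :
    IsSquare ((-1) ^ (s + 1) * ((∏ D, ((a D : ℕ) : ZMod r)) * F.res Q)) := by
  have hl := F.one_sub_ne hn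
  have hz := F.ζ_ne hn
  -- the product of the units
  set P : F.O := (∏ D, F.w (a D)) * Q with hP
  have hPr : F.res P = (∏ D, ((a D : ℕ) : ZMod r)) * F.res Q := by
    rw [hP, map_mul, map_prod]
    congr 1
    exact Finset.prod_congr rfl fun D _ => F.res_w (a D)
  have hPr0 : F.res P ≠ 0 := by
    rw [hPr]
    exact mul_ne_zero (Finset.prod_ne_zero_iff.2 fun D _ => ha D) hQ
  have hP0 : (P : E) ≠ 0 := by
    intro h
    have : P = 0 := Subtype.ext h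
    rw [this, map_zero] at hPr0
    exact hPr0 rfl
  have hprod : (∏ D, (1 - F.ζ ^ a D)) * (Q : E) = (1 - F.ζ) ^ (2 * s) * (P : E) := by
    rw [Finset.prod_congr rfl fun D _ => F.one_sub_pow (a D), Finset.prod_mul_distrib,
      Finset.prod_const, Finset.card_univ, hs, hP]
    push_cast
    ring
  have hb0 : b ≠ 0 := by
    rintro rfl
    rw [zero_mul, hprod, eq_comm, neg_eq_zero] at hb
    exact mul_ne_zero (pow_ne_zero _ hl) hP0 hb
  obtain ⟨m, u, hu, hu', hbu⟩ := F.dvr b hb0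
  have hu0 : u ≠ 0 := by
    rintro rfl
    rw [mul_zero] at hbu
    exact hb0 hbu
  have hinv : F.ζ⁻¹ ∈ F.O := by
    rw [← F.σ_ζ]
    exact F.σ_mem _ F.ζ_mem
  have hσl : F.σ (1 - F.ζ) = (1 - F.ζ) * (-F.ζ⁻¹) := by
    rw [map_sub, map_one, F.σ_ζ]
    field_simp
    ring
  -- the unit part of the norm
  have e1 : b * F.σ b = (1 - F.ζ) ^ (2 * m) * ((-F.ζ⁻¹) ^ m * (u * F.σ u)) := by
    rw [hbu, map_mul, map_zpow₀, hσl, mul_zpow, two_mul, zpow_add₀ hl]
    ring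
  have e2 : (1 - F.ζ) ^ (2 * m) * ((-F.ζ⁻¹) ^ m * (u * F.σ u)) =
      -((1 - F.ζ) ^ (2 * (s : ℤ)) * (P : E)) := by
    rw [← e1, hb, hprod]
    congr 2
    norm_cast
  -- the element `(-ζ⁻¹) ^ m` is a unit
  have hneg : (-F.ζ⁻¹) ∈ F.O := F.O.neg_mem hinv
  have hneg' : (-F.ζ⁻¹)⁻¹ ∈ F.O := by
    have : (-F.ζ⁻¹)⁻¹ = -F.ζ := by
      rw [inv_neg, inv_inv]
    rw [this]
    exact F.O.neg_mem F.ζ_mem
  have hzm : ∀ m : ℤ, (-F.ζ⁻¹) ^ m ∈ F.O := by
    intro m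
    rcases le_or_gt 0 m with h | h
    · lift m to ℕ using h
      rw [zpow_natCast]
      exact F.O.pow_mem hneg m
    · obtain ⟨k, hk⟩ : ∃ k : ℕ, m = -(k : ℤ) := ⟨m.natAbs, by omega⟩
      rw [hk, zpow_neg, ← inv_zpow, zpow_natCast]
      exact F.O.pow_mem hneg' k
  have hσu : F.σ u ∈ F.O := F.σ_mem _ hu
  have hU : (-F.ζ⁻¹) ^ m * (u * F.σ u) ∈ F.O := F.O.mul_mem (hzm m) (F.O.mul_mem hu hσu)
  have hU' : ((-F.ζ⁻¹) ^ m * (u * F.σ u))⁻¹ ∈ F.O := by
    rw [mul_inv, mul_inv, ← zpow_neg, ← map_inv₀]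
    exact F.O.mul_mem (hzm _) (F.O.mul_mem hu' (F.σ_mem _ hu'))
  have hU0 : (-F.ζ⁻¹) ^ m * (u * F.σ u) ≠ 0 := by
    refine mul_ne_zero (zpow_ne_zero _ (neg_ne_zero.2 (inv_ne_zero hz))) (mul_ne_zero hu0 ?_)
    exact (map_ne_zero F.σ).2 hu0
  have hUr := F.res_unit_ne hU hU' hU0
  -- the valuation
  have hm : m = s := by
    rcases lt_trichotomy m s with h | h | h
    · exfalso
      obtain ⟨k, hk⟩ : ∃ k : ℕ, 2 * (s : ℤ) = 2 * m + (k + 1 : ℕ) :=
        ⟨(2 * (s : ℤ) - 2 * m - 1).toNat, by omega⟩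
      rw [hk, zpow_add₀ hl, mul_assoc, ← mul_neg] at e2
      have e3 := mul_left_cancel₀ (zpow_ne_zero _ hl) e2
      rw [zpow_natCast, pow_succ] at e3
      apply hUr
      refine (F.ker _).2 ⟨-((1 - F.ζ) ^ k * (P : E)), ?_, ?_⟩
      · exact F.O.neg_mem (F.O.mul_mem (F.O.pow_mem F.one_sub_mem k) P.2)
      · change (-F.ζ⁻¹) ^ m * (u * F.σ u) = _
        rw [e3]
        ring
    · exact h
    · exfalso
      obtain ⟨k, hk⟩ : ∃ k : ℕ, 2 * m = 2 * (s : ℤ) + (k + 1 : ℕ) :=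
        ⟨(2 * m - 2 * (s : ℤ) - 1).toNat, by omega⟩
      rw [hk, zpow_add₀ hl, mul_assoc, ← mul_neg] at e2
      have e3 := mul_left_cancel₀ (zpow_ne_zero _ hl) e2
      rw [zpow_natCast, pow_succ] at e3
      apply hPr0
      refine (F.ker _).2 ⟨-((1 - F.ζ) ^ k * ((-F.ζ⁻¹) ^ m * (u * F.σ u))), ?_, ?_⟩
      · exact F.O.neg_mem (F.O.mul_mem (F.O.pow_mem F.one_sub_mem k) hU)
      · linear_combination e3
  subst hm
  have e4 := mul_left_cancel₀ (zpow_ne_zero _ hl) (e2.trans (mul_neg _ _).symm)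
  have e5 : (⟨-F.ζ⁻¹, hneg⟩ : F.O) ^ s * (⟨u, hu⟩ * ⟨F.σ u, hσu⟩) = -P := by
    apply Subtype.ext
    push_cast
    rw [← e4, zpow_natCast]
  have e6 := congrArg F.res e5
  have e7 : F.res ⟨-F.ζ⁻¹, hneg⟩ = -1 := by
    have h1 : (⟨-F.ζ⁻¹, hneg⟩ : F.O) = -⟨F.σ F.ζ, F.σ_mem _ F.ζ_mem⟩ := by
      apply Subtype.ext
      push_cast
      rw [F.σ_ζ]
    rw [h1, map_neg, F.res_σ hn ⟨F.ζ, F.ζ_mem⟩, F.res_ζ]
  rw [map_mul, map_pow, map_mul, map_neg, e7, F.res_σ hn ⟨u, hu⟩, hPr] at e6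
  refine ⟨F.res ⟨u, hu⟩, ?_⟩
  have h2 : ((-1 : ZMod r) ^ s) * (-1) ^ s = 1 := by
    rw [← mul_pow]
    simp
  rw [pow_succ]
  linear_combination (-(-1 : ZMod r) ^ s) * e6 +
    (F.res ⟨u, hu⟩ * F.res ⟨u, hu⟩) * h2

/-- minus one is no norm -/
theorem neg_one_ne [hr : Fact r.Prime] (h4 : r % 4 = 3) (hn : 1 < n) (b : E) :
    b * F.σ b ≠ -1 := by
  intro hb
  have h := F.isSquare_of_norm hn (ι := Fin 0) (s := 0) rfl (fun D => D.elim0)
    (fun D => D.elim0) b (by simpa using hb)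
  simp only [univ_eq_empty, prod_empty, mul_one, zero_add, pow_one] at h
  rw [ZMod.exists_sq_eq_neg_one_iff] at h
  omega

end Pool.Agent.Helper41.RC.RField

namespace Pool.Agent.Helper41.RC.RField

variable {E : Type} [Field E] (F : RField 2 4 E)

theorem ζ_sq : F.ζ ^ 2 = -1 := by
  have h1 : (F.ζ ^ 2) ^ 2 = 1 := by
    rw [← pow_mul]
    exact F.prim.pow_eq_one
  have h2 : (F.ζ ^ 2 - 1) * (F.ζ ^ 2 + 1) = 0 := by linear_combination h1
  rcases mul_eq_zero.1 h2 with h | h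
  · exact absurd (sub_eq_zero.1 h) (F.prim.pow_ne_one_of_pos_of_lt (by norm_num) (by norm_num))
  · linear_combination h

theorem inv_ζ : F.ζ⁻¹ = -F.ζ := by
  have h := F.ζ_sq
  have h0 := F.ζ_ne (by norm_num)
  field_simp
  linear_combination h

theorem pi_sq : (1 - F.ζ) * (1 - F.ζ) = -2 * F.ζ := by
  have h := F.ζ_sq
  linear_combination h

theorem pi_mul : (1 - F.ζ) * (1 + F.ζ) = 2 := by
  have h := F.ζ_sq
  linear_combination -h

include F in
theorem two_ne : (2 : E) ≠ 0 := by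
  intro h
  have h1 := F.pi_sq
  rw [h, neg_zero, zero_mul, mul_self_eq_zero] at h1
  exact F.one_sub_ne (by norm_num) h1

theorem res_two (y : F.O) : F.res (2 * y) = 0 := by
  rw [map_mul, map_ofNat]
  have : (2 : ZMod 2) = 0 := by decide
  rw [this, zero_mul]

/-- expansions -/
theorem expand (N : ℕ) (x : E) (hx : x ∈ F.O) : ∃ (m n : ℤ) (w : E), w ∈ F.O ∧
    x = m + n * F.ζ + (1 - F.ζ) ^ N * w := by
  induction N with
  | zero => exact ⟨0, 0, x, hx, by simp⟩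
  | succ N ih =>
    obtain ⟨m, n, w, hw, h⟩ := ih
    -- the powers of the uniformiser
    have hpow : ∀ j : ℕ, ∃ m n : ℤ, (1 - F.ζ) ^ j = m + n * F.ζ := by
      intro j
      induction j with
      | zero => exact ⟨1, 0, by simp⟩
      | succ j ih =>
        obtain ⟨m, n, h⟩ := ih
        refine ⟨m + n, n - m, ?_⟩
        rw [pow_succ, h]
        push_cast
        linear_combination -(n : E) * F.ζ_sq
    have h01 : ∀ t : ZMod 2, t = 0 ∨ t = 1 := by decide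
    rcases h01 (F.res ⟨w, hw⟩) with h0 | h1
    · obtain ⟨y, hy, hy'⟩ := (F.ker _).1 h0
      refine ⟨m, n, y, hy, ?_⟩
      rw [h, pow_succ]
      have : w = (1 - F.ζ) * y := hy'
      rw [this]
      ring
    · have h2 : F.res (⟨w, hw⟩ - 1) = 0 := by rw [map_sub, map_one, h1, sub_self]
      obtain ⟨y, hy, hy'⟩ := (F.ker _).1 h2
      obtain ⟨m', n', hmn⟩ := hpow N
      refine ⟨m + m', n + n', y, hy, ?_⟩
      have h3 : w - 1 = (1 - F.ζ) * y := hy'
      have h4 : w = 1 + (1 - F.ζ) * y := by linear_combination h3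
      rw [h, h4, pow_succ]
      push_cast
      linear_combination hmn

theorem neg_one_ne_two (b : E) : b * F.σ b ≠ -1 := by
  intro hb
  have c2 : ((2 : F.O) : E) = 2 := rfl
  have c4 : ((4 : F.O) : E) = 4 := rfl
  have hb0 : b ≠ 0 := by
    rintro rfl
    rw [zero_mul, eq_comm, neg_eq_zero] at hb
    exact one_ne_zero hb
  have h2 := F.two_ne
  obtain ⟨m, u, hu, hu', hbu⟩ := F.dvr b hb0
  have hu0 : u ≠ 0 := by
    rintro rfl
    rw [mul_zero] at hbu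
    exact hb0 hbu
  have hσl : F.σ (1 - F.ζ) = 1 + F.ζ := by
    rw [map_sub, map_one, F.σ_ζ, F.inv_ζ]
    ring
  have hσu : F.σ u ∈ F.O := F.σ_mem _ hu
  have e1 : (2 : E) ^ m * (u * F.σ u) = -1 := by
    rw [← hb, hbu, map_mul, map_zpow₀, hσl, ← F.pi_mul, mul_zpow]
    ring
  have hU : u * F.σ u ∈ F.O := F.O.mul_mem hu hσu
  have hUinv : (u * F.σ u)⁻¹ ∈ F.O := by
    rw [mul_inv, ← map_inv₀]
    exact F.O.mul_mem hu' (F.σ_mem _ hu')
  have hUr := F.res_unit_ne hU hUinv (mul_ne_zero hu0 ((map_ne_zero F.σ).2 hu0))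
  -- the valuation is zero
  have hm : m = 0 := by
    rcases lt_trichotomy m 0 with h | h | h
    · exfalso
      obtain ⟨k, hk⟩ : ∃ k : ℕ, m = -((k + 1 : ℕ) : ℤ) := ⟨(-m - 1).toNat, by omega⟩
      rw [hk, zpow_neg, zpow_natCast] at e1
      have e2 : u * F.σ u = 2 * (-2 ^ k) := by
        have h3 : (2 : E) ^ (k + 1) ≠ 0 := pow_ne_zero _ h2
        field_simp at e1
        rw [e1, pow_succ]
        ring
      apply hUr
      have h4 : (⟨u * F.σ u, hU⟩ : F.O) = 2 * (-2 ^ k) := by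
        apply Subtype.ext
        push_cast
        exact e2
      rw [h4]
      exact F.res_two _
    · exact h
    · exfalso
      obtain ⟨k, hk⟩ : ∃ k : ℕ, m = ((k + 1 : ℕ) : ℤ) := ⟨(m - 1).toNat, by omega⟩
      rw [hk, zpow_natCast, pow_succ] at e1
      have h4 : (1 : F.O) = 2 * (-(2 ^ k * ⟨u * F.σ u, hU⟩)) := by
        apply Subtype.ext
        push_cast
        rw [c2]
        linear_combination e1
      have h5 := congrArg F.res h4
      rw [F.res_two, map_one] at h5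
      exact one_ne_zero h5
  rw [hm, zpow_zero, one_mul] at e1
  obtain ⟨x, y, w, hw, hx⟩ := F.expand 4 u hu
  have h4 : (1 - F.ζ) ^ 4 = -4 := by
    have h := F.ζ_sq
    linear_combination (F.ζ ^ 2 - 4 * F.ζ + 5) * h
  rw [h4] at hx
  have hσ : F.σ u = x - y * F.ζ - 4 * F.σ w := by
    rw [hx, map_add, map_add, map_mul, map_mul, map_intCast, map_intCast, F.σ_ζ, F.inv_ζ,
      map_neg, map_ofNat]
    ring
  have hσw := F.σ_mem w hw
  have hy : ((x ^ 2 + y ^ 2 + 1 : ℤ) : F.O) = 4 * (⟨w, hw⟩ * (x - y * ⟨F.ζ, F.ζ_mem⟩) +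
      ⟨F.σ w, hσw⟩ * (x + y * ⟨F.ζ, F.ζ_mem⟩) - 4 * (⟨w, hw⟩ * ⟨F.σ w, hσw⟩)) := by
    apply Subtype.ext
    push_cast
    rw [c4]
    rw [hσ, hx] at e1
    linear_combination e1 + (y : E) ^ 2 * F.ζ_sq
  set t := ⟨w, hw⟩ * ((x : F.O) - y * ⟨F.ζ, F.ζ_mem⟩) +
      ⟨F.σ w, hσw⟩ * (x + y * ⟨F.ζ, F.ζ_mem⟩) - 4 * (⟨w, hw⟩ * ⟨F.σ w, hσw⟩) with ht
  have hmod : (x ^ 2 + y ^ 2 + 1) % 4 = 1 ∨ (x ^ 2 + y ^ 2 + 1) % 4 = 2 ∨
      (x ^ 2 + y ^ 2 + 1) % 4 = 3 := by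
    have hx4 : x ^ 2 % 4 = 0 ∨ x ^ 2 % 4 = 1 := by
      rcases Int.emod_two_eq_zero_or_one x with h | h
      · obtain ⟨z, hz⟩ : ∃ z, x = 2 * z := ⟨x / 2, by omega⟩
        left
        rw [hz]
        ring_nf
        omega
      · obtain ⟨z, hz⟩ : ∃ z, x = 2 * z + 1 := ⟨x / 2, by omega⟩
        right
        rw [hz]
        ring_nf
        omega
    have hy4 : y ^ 2 % 4 = 0 ∨ y ^ 2 % 4 = 1 := by
      rcases Int.emod_two_eq_zero_or_one y with h | h
      · obtain ⟨z, hz⟩ : ∃ z, y = 2 * z := ⟨y / 2, by omega⟩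
        left
        rw [hz]
        ring_nf
        omega
      · obtain ⟨z, hz⟩ : ∃ z, y = 2 * z + 1 := ⟨y / 2, by omega⟩
        right
        rw [hz]
        ring_nf
        omega
    omega
  have hres : ((x ^ 2 + y ^ 2 + 1 : ℤ) : ZMod 2) = 0 := by
    have h5 := congrArg F.res hy
    rw [map_intCast] at h5
    rw [h5]
    have h6 : (4 : F.O) * t = 2 * (2 * t) := by ring
    rw [h6]
    exact F.res_two _
  have heven : (x ^ 2 + y ^ 2 + 1) % 2 = 0 := by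
    rw [ZMod.intCast_zmod_eq_zero_iff_dvd] at hres
    omega
  obtain ⟨z, hz⟩ : ∃ z, x ^ 2 + y ^ 2 + 1 = 2 * (2 * z + 1) :=
    ⟨(x ^ 2 + y ^ 2 + 1) / 4, by omega⟩
  rw [hz] at hy
  have h5 : ((2 * z + 1 : ℤ) : F.O) = 2 * t := by
    apply Subtype.ext
    have h6 := congrArg Subtype.val hy
    push_cast at h6 ⊢
    rw [c4, c2] at h6
    rw [c2]
    apply mul_left_cancel₀ h2
    linear_combination h6
  have h6 := congrArg F.res h5
  rw [F.res_two, map_intCast, ZMod.intCast_zmod_eq_zero_iff_dvd] at h6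
  omega

end Pool.Agent.Helper41.RC.RField
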