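import Pool.Agent.Helper73.QC.Good
import Pool.Agent.Helper41.RX.Field

/-!
# Exponents modulo four, and numbers `n` with `φ(n) / 2` odd
-/

set_option autoImplicit false

open Finset Pool.Agent.Helper73.QC

namespace Pool.Agent.Helper41.RX

theorem sum_residues' {R : Type} [CommRing R] (a : Fin 5 → R) : ∑ i, residues a i = 0 := by
  simp only [residues, Fin.sum_univ_succ, Fin.sum_univ_zero]
  simp
  ring

/-- the height of exponents modulo four if minus the product is a norm -/
theorem even_height {E : Type} [Field E] (F : RC.RField 2 4 E) {a : Fin 5 → ZMod 4}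
    (ha : ∀ i, residues a i ≠ 0) (y : E)
    (hy : y * F.σ y = -∏ i, (1 - F.ζ ^ (residues a i).val)) : Even (height a) := by
  have hsq := F.ζ_sq
  have h2 := F.two_ne
  set n2 : ℕ := ∑ i, if residues a i = 2 then 1 else 0 with hn2
  set n3 : ℕ := ∑ i, if residues a i = 3 then 1 else 0 with hn3
  have hval : ∀ x : ZMod 4, x ≠ 0 →
      x.val = 1 + (if x = 2 then 1 else 0) + 2 * (if x = 3 then 1 else 0) := by decide
  have hsum : ∑ i, (residues a i).val = 10 + n2 + 2 * n3 := by
    rw [Finset.sum_congr rfl fun i _ => hval _ (ha i), Finset.sum_add_distrib,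
      Finset.sum_add_distrib, ← Finset.mul_sum, Finset.sum_const, card_univ, Fintype.card_fin]
    simp [hn2, hn3]
  have hdvd : 4 ∣ ∑ i, (residues a i).val := by
    rw [← ZMod.natCast_eq_zero_iff, Nat.cast_sum]
    simp only [ZMod.natCast_val, ZMod.cast_id', id_eq]
    exact sum_residues' a
  obtain ⟨h, hh⟩ := hdvd
  have hheight : height a = h := by
    rw [height, hh]
    exact Nat.mul_div_cancel_left h (by norm_num)
  rw [hheight]
  -- the factors
  have hfac : ∀ x : ZMod 4, x ≠ 0 → 1 - F.ζ ^ x.val =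
      (1 - F.ζ) * (1 - F.ζ) ^ (if x = 2 then 1 else 0) *
        (F.ζ ^ (if x = 2 then 1 else 0) * F.ζ ^ (if x = 3 then 1 else 0)) := by
    have hcases : ∀ x : ZMod 4, x ≠ 0 → x = 1 ∨ x = 2 ∨ x = 3 := by decide
    intro x hx
    rcases hcases x hx with rfl | rfl | rfl
    · have e1 : (1 : ZMod 4).val = 1 := rfl
      have e2 : (1 : ZMod 4) ≠ 2 := by decide
      have e3 : (1 : ZMod 4) ≠ 3 := by decide
      rw [e1, if_neg e2, if_neg e3]
      ring
    · have e1 : (2 : ZMod 4).val = 2 := rfl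
      have e3 : (2 : ZMod 4) ≠ 3 := by decide
      rw [e1, if_pos rfl, if_neg e3]
      linear_combination (1 - F.ζ) * hsq
    · have e1 : (3 : ZMod 4).val = 3 := rfl
      have e2 : (3 : ZMod 4) ≠ 2 := by decide
      rw [e1, if_neg e2, if_pos rfl]
      linear_combination -(F.ζ - 1) * hsq
  have hprod : ∏ i, (1 - F.ζ ^ (residues a i).val) =
      (1 - F.ζ) ^ (10 + n2) * F.ζ ^ (n2 + n3) := by
    rw [Finset.prod_congr rfl fun i _ => hfac _ (ha i), Finset.prod_mul_distrib,
      Finset.prod_mul_distrib, Finset.prod_mul_distrib, Finset.prod_pow_eq_pow_sum,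
      Finset.prod_pow_eq_pow_sum, Finset.prod_pow_eq_pow_sum, Finset.prod_const, card_univ,
      Fintype.card_fin, ← hn2, ← hn3, pow_add, pow_add]
  obtain ⟨m, hm⟩ : ∃ m, n2 = 2 * m := ⟨n2 / 2, by omega⟩
  have hn3' : 5 + m + n3 = 2 * h := by omega
  have hpi : (1 - F.ζ) ^ (10 + n2) * F.ζ ^ (n2 + n3) = -((-1) ^ h * 2 ^ (5 + m)) := by
    have e1 : (1 - F.ζ) ^ (10 + n2) = ((1 - F.ζ) * (1 - F.ζ)) ^ (5 + m) := by
      rw [← pow_two, ← pow_mul, hm]
      congr 1
      ring
    have e2 : F.ζ ^ (5 + m) * F.ζ ^ (n2 + n3) = (-1) ^ (h + m) := by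
      rw [← pow_add, ← hsq, ← pow_mul]
      congr 1
      omega
    rw [e1, F.pi_sq, mul_pow, mul_assoc, e2, neg_pow (2 : E), pow_add (-1 : E) h m,
      pow_add (-1 : E) 5 m]
    have e3 : ((-1 : E) ^ m) * (-1) ^ m = 1 := by
      rw [← mul_pow]
      simp
    linear_combination (-((-1 : E) ^ h * 2 ^ (5 + m))) * e3
  rw [hprod, hpi, neg_neg] at hy
  by_contra hodd
  rw [Nat.not_even_iff_odd] at hodd
  rw [hodd.neg_one_pow] at hy
  -- `2` is the norm of `1 - ζ`
  have hσ : F.σ (1 - F.ζ) = 1 + F.ζ := by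
    rw [map_sub, map_one, F.σ_ζ, F.inv_ζ]
    ring
  have hl := F.one_sub_ne (by norm_num)
  have hl' : (1 + F.ζ) ≠ 0 := by
    rw [← hσ]
    exact (map_ne_zero F.σ).2 hl
  apply F.neg_one_ne_two (y / (1 - F.ζ) ^ (5 + m))
  rw [map_div₀, map_pow, hσ, div_mul_div_comm, hy, ← mul_pow, F.pi_mul]
  field_simp

/-- The numbers `n` with `φ(n) / 2` odd. -/
theorem cases_of_odd {r c k : ℕ} [hr : Fact r.Prime] (hc : c = 1 ∨ c = 2)
    (hcr : c.Coprime r) (hodd : Odd ((c * r ^ k).totient / 2)) :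
    (0 < k ∧ r % 4 = 3) ∨ (r = 2 ∧ k = 2 ∧ c = 1) := by
  have hrp : r.Prime := hr.out
  have h1 : (c * r ^ k).totient = (r ^ k).totient := by
    rw [Nat.totient_mul (hcr.pow_right k)]
    rcases hc with rfl | rfl <;> simp
  rw [h1] at hodd
  rcases k.eq_zero_or_pos with h | h
  · exfalso
    rw [h, pow_zero, Nat.totient_one] at hodd
    exact absurd hodd (by decide)
  rw [Nat.totient_prime_pow hrp h] at hodd
  rcases hrp.eq_two_or_odd' with h2 | h2
  · right
    subst h2
    refine ⟨rfl, ?_, ?_⟩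
    · obtain ⟨j, rfl⟩ : ∃ j, k = j + 1 := ⟨k - 1, by omega⟩
      rcases j with - | - | j
      · exact absurd hodd (by decide)
      · rfl
      · exfalso
        have h3 : 2 ^ (j + 1 + 1 + 1 - 1) * (2 - 1) / 2 = 2 * 2 ^ j := by
          have : 2 ^ (j + 1 + 1 + 1 - 1) * (2 - 1) = 2 * (2 * 2 ^ j) := by
            have e : j + 1 + 1 + 1 - 1 = j + 2 := by omega
            rw [e]
            ring
          rw [this]
          omega
        rw [h3] at hodd
        exact absurd hodd (by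
          rw [Nat.not_odd_iff_even]
          exact ⟨2 ^ j, by ring⟩)
    · rcases hc with h4 | h4
      · exact h4
      · exfalso
        rw [h4] at hcr
        exact absurd hcr (by decide)
  · left
    refine ⟨h, ?_⟩
    obtain ⟨j, hj⟩ := h2
    have h3 : r ^ (k - 1) * (r - 1) / 2 = r ^ (k - 1) * j := by
      have : r ^ (k - 1) * (r - 1) = 2 * (r ^ (k - 1) * j) := by
        rw [hj]
        have e : 2 * j + 1 - 1 = 2 * j := by omega
        rw [e]
        ring
      rw [this]
      omega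
    rw [h3, Nat.odd_mul] at hodd
    obtain ⟨i, hi⟩ := hodd.2
    omega

end Pool.Agent.Helper41.RX
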