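import Pool.Agent.Helper73.LF.Lin
import Pool.Agent.Helper41.RX.Field
import Pool.Agent.Helper41.RX.Block

/-!
# Working copy of the definitions of RAMIFIED COVERS
-/

set_option autoImplicit false

open Module

namespace Pool.Agent.Helper41.RX

open Pool.Agent.Helper41.RC (vec repr_vec descent)

/-- the sum over the points of the complement of the quadrilateral -/
noncomputable def quadSum {K L : Type} [Field K] [Fintype K] [Field L]
    (χ : Fin 5 → MulChar K L) : L :=
  ∑ x : K, ∑ y : K, χ 0 x * χ 1 (1 - x) * χ 2 y * χ 3 (1 - y) * χ 4 (x - y)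

/-- the exponents of `x ^ a 0 * (1 - x) ^ a 1 * y ^ a 2 * (1 - y) ^ a 3 * (x - y) ^ a 4` along the
ten curves at the boundary of the moduli space of five points on the projective line -/
def residues {R : Type} [CommRing R] (a : Fin 5 → R) : Fin 10 → R :=
  ![a 0, a 1, a 2, a 3, a 4, -(a 0 + a 1 + a 4), -(a 2 + a 3 + a 4), a 0 + a 2 + a 4,
    a 1 + a 3 + a 4, -(a 0 + a 1 + a 2 + a 3 + a 4)]

/-- the power of the character `τ` with exponent `(q - 1) a / n`, `q` the number of elements -/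
noncomputable def power {K L : Type} [Field K] [Fintype K] [Field L] {n : ℕ} (τ : MulChar K L)
    (a : ZMod n) : MulChar K L := τ ^ ((Fintype.card K - 1) * a.val / n)

/-- Frobenius on `V = H²(X̄, L)` and the parts of `V` belonging to the characters of the group of
the cover. -/
structure QuadrilateralH2 (p n : ℕ) (L V : Type) [Field L] [AddCommGroup V] [Module L V] where
  /-- the geometric Frobenius -/
  Fr : End L V
  injective : Function.Injective Fr
  /-- the cup product -/
  B : LinearMap.BilinForm L V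
  symm : ∀ x y, B x y = B y x
  similitude : ∀ x y, B (Fr x) (Fr y) = (p : L) ^ 2 * B x y
  /-- the span of algebraic classes -/
  N : Submodule L V
  N_stable : ∀ x ∈ N, Fr x ∈ N
  N_semisimple : End.IsSemisimple (Fr.restrict N_stable)
  /-- the part belonging to the character with the exponents `a` -/
  W : (Fin 5 → ZMod n) → Submodule L V
  span : N ⊔ ⨆ a, W a = ⊤
  stable : ∀ a, ∀ x ∈ W a, Fr x ∈ W (fun i => p * a i)
  perfect : ∀ a, ∀ v ∈ W a, (∀ w ∈ W (-a), B v w = 0) → v = 0
  finrank_le : ∀ a, finrank L (W a) ≤ 2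
  /-- the character is unramified along one of the ten curves and its square is not trivial -/
  finrank_le_one : ∀ a, (∃ i, residues a i = 0) → (∃ i, 2 * a i ≠ 0) → finrank L (W a) ≤ 1
  /-- the trace formula -/
  trace_formula : ∀ (m : ℕ) (K : Type) [Field K] [Fintype K],
    Fintype.card K = p ^ m → ∃ τ : MulChar K L, orderOf τ = p ^ m - 1 ∧
      ∀ a, W a ≠ ⊥ → (∀ i, residues a i ≠ 0) → (∀ i, (p : ZMod n) ^ m * a i = a i) →
        ∀ h : ∀ x ∈ W a, (Fr ^ m) x ∈ W a,
          LinearMap.trace L (W a) ((Fr ^ m).restrict h) = quadSum fun i => power τ (a i)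

/-- The same with `ℓ = r`: `V = H²(X̄, ℚ_r) ⊗ L` for a field `L` containing `E = ℚ_r(ζ)`, `b` is a
basis of `H²(X̄, ℚ_r)`, and the determinant of the Hermitian form given by the cup product on the
part with the exponents `a` is the product of the ten numbers `1 - ζ ^ x`, `x` the exponents along
the ten curves, up to a norm. -/
structure RationalH2 (p : ℕ) {r c n : ℕ} {E : Type} [Field E] (F : RField r c n E) (L V : Type)
    [Field L] [Algebra E L] [AddCommGroup V] [Module L V] extends QuadrilateralH2 p n L V where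
  d : ℕ
  /-- a basis of the cohomology with coefficients in `ℚ_r` -/
  b : Basis (Fin d) L V
  Fr_rational : ∀ i j, ∃ x : E, F.σ x = x ∧ b.repr (Fr (b i)) j = algebraMap E L x
  B_rational : ∀ i j, ∃ x : E, F.σ x = x ∧ B (b i) (b j) = algebraMap E L x
  W_rational : ∀ a, W a ≤ Submodule.span L {x | x ∈ W a ∧ ∃ v : Fin d → E, x = vec b v}
  W_neg : ∀ a, ∀ v : Fin d → E, vec b v ∈ W a → vec b (fun i => F.σ (v i)) ∈ W (-a)
  det : ∀ a, (∀ i, residues a i ≠ 0) → ∀ v w : Fin d → E, vec b v ∈ W a → vec b w ∈ W a →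
    LinearIndependent L ![vec b v, vec b w] → ∃ z : E, z ≠ 0 ∧
      B (vec b v) (vec b fun i => F.σ (v i)) * B (vec b w) (vec b fun i => F.σ (w i)) -
        B (vec b v) (vec b fun i => F.σ (w i)) * B (vec b w) (vec b fun i => F.σ (v i)) =
      algebraMap E L (z * F.σ z * ∏ i, (1 - F.ζ ^ (residues a i).val))

section

variable {p r c n : ℕ} {E : Type} [Field E] {F : RField r c n E} {L V : Type}
  [Field L] [Algebra E L] [AddCommGroup V] [Module L V]

/-- the matrix of Frobenius is fixed by the involution -/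
theorem Fr_vec (H : RationalH2 p F L V) (v : Fin H.d → E) :
    ∃ w, H.Fr (vec H.b v) = vec H.b w ∧
      H.Fr (vec H.b fun i => F.σ (v i)) = vec H.b fun i => F.σ (w i) := by
  choose A hA1 hA2 using H.Fr_rational
  have key : ∀ v : Fin H.d → E, H.Fr (vec H.b v) = vec H.b fun j => ∑ i, A i j * v i := by
    intro v
    apply H.b.repr.injective
    ext j
    rw [repr_vec, vec, map_sum, map_sum, Finsupp.finsetSum_apply, map_sum]
    refine Finset.sum_congr rfl fun i _ => ?_
    rw [map_smul, map_smul, Finsupp.smul_apply, hA2, smul_eq_mul, map_mul, mul_comm]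
  refine ⟨_, key v, ?_⟩
  rw [key]
  congr 1
  funext j
  rw [map_sum]
  refine Finset.sum_congr rfl fun i _ => ?_
  rw [map_mul, hA1]

theorem Fr_pow_vec (H : RationalH2 p F L V) (m : ℕ) (v : Fin H.d → E) :
    ∃ w, (H.Fr ^ m) (vec H.b v) = vec H.b w ∧
      (H.Fr ^ m) (vec H.b fun i => F.σ (v i)) = vec H.b fun i => F.σ (w i) := by
  induction m with
  | zero => exact ⟨v, rfl, rfl⟩
  | succ m ih =>
    obtain ⟨w, h1, h2⟩ := ih
    obtain ⟨w', h3, h4⟩ := Fr_vec H w
    refine ⟨w', ?_, ?_⟩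
    · rw [pow_succ', End.mul_apply, h1, h3]
    · rw [pow_succ', End.mul_apply, h2, h4]

/-- values of the form -/
theorem B_vec (H : RationalH2 p F L V) (v w : Fin H.d → E) :
    ∃ x : E, H.B (vec H.b v) (vec H.b w) = algebraMap E L x ∧
      H.B (vec H.b fun i => F.σ (v i)) (vec H.b fun i => F.σ (w i)) =
        algebraMap E L (F.σ x) := by
  choose A hA1 hA2 using H.B_rational
  have key : ∀ v w : Fin H.d → E, H.B (vec H.b v) (vec H.b w) =
      algebraMap E L (∑ i, ∑ j, v i * w j * A i j) := by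
    intro v w
    simp only [vec, map_sum, map_smul, LinearMap.sum_apply, LinearMap.smul_apply, hA2,
      smul_eq_mul, map_mul]
    rw [Finset.sum_comm]
    refine Finset.sum_congr rfl fun i _ => ?_
    rw [Finset.mul_sum]
    refine Finset.sum_congr rfl fun j _ => ?_
    ring
  refine ⟨_, key v w, ?_⟩
  rw [key]
  congr 1
  simp only [map_sum, map_mul, hA1]

theorem block_data (H : RationalH2 p F L V) [CharZero L] [FiniteDimensional L V]
    (hp : p ≠ 0) {m : ℕ} {a : Fin 5 → ZMod n}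
    (hsim : ∀ x y, H.B ((H.Fr ^ m) x) ((H.Fr ^ m) y) = ((p : L) ^ m) ^ 2 * H.B x y)
    (hst : ∀ x ∈ H.W a, (H.Fr ^ m) x ∈ H.W a) (x : H.W a) (c : L)
    (h1 : ((H.Fr ^ m).restrict hst - c • 1) (((H.Fr ^ m).restrict hst - c • 1) x) = 0)
    (h2 : ((H.Fr ^ m).restrict hst - c • 1) x ≠ 0) :
    ∃ (e v : Fin H.d → E) (c0 : E), vec H.b e ∈ H.W a ∧ vec H.b v ∈ H.W a ∧
      LinearIndependent L ![vec H.b e, vec H.b v] ∧
      H.B (vec H.b v) (vec H.b fun i => F.σ (v i)) = 0 ∧ algebraMap E L c0 = c ∧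
      (H.Fr ^ m) (vec H.b v) = c • vec H.b v ∧ ((H.Fr ^ m) (vec H.b fun i => F.σ (v i)) =
        algebraMap E L (F.σ c0) • vec H.b fun i => F.σ (v i)) ∧
      ∀ y ∈ H.W a, (H.Fr ^ m) y = c • y → ∃ β : L, y = β • vec H.b v := by
  have hQ : ((p : L) ^ m) ^ 2 ≠ 0 := pow_ne_zero _ (pow_ne_zero _ (Nat.cast_ne_zero.2 hp))
  have h1' : (H.Fr ^ m) ((H.Fr ^ m) (x : V) - c • (x : V)) =
      c • ((H.Fr ^ m) (x : V) - c • (x : V)) := by
    have := congrArg Subtype.val h1
    simp only [LinearMap.sub_apply, LinearMap.smul_apply, End.one_apply, LinearMap.restrict_apply,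
      Submodule.coe_sub, Submodule.coe_smul, Submodule.coe_zero] at this
    rw [sub_eq_zero] at this
    exact this
  have h2' : (H.Fr ^ m) (x : V) - c • (x : V) ≠ 0 := by
    intro h
    apply h2
    apply Subtype.ext
    simp only [LinearMap.sub_apply, LinearMap.smul_apply, End.one_apply, LinearMap.restrict_apply,
      Submodule.coe_sub, Submodule.coe_smul, Submodule.coe_zero]
    exact h
  exact block F.σ H.b (H.Fr ^ m) H.B hQ hsim
    (fun v => Fr_pow_vec H m v) (H.W a) (H.W_rational a) (H.finrank_le a) hst x.2 h1' h2'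

/-- A Jordan block of a power of Frobenius on a part of rank two: minus the product of the ten
numbers `1 - ζ ^ x` is a norm. -/
theorem norm_of_block (H : RationalH2 p F L V) [CharZero L] [FiniteDimensional L V]
    (hp : p ≠ 0) {m : ℕ} {a : Fin 5 → ZMod n} (hres : ∀ i, residues a i ≠ 0)
    (hsim : ∀ x y, H.B ((H.Fr ^ m) x) ((H.Fr ^ m) y) = ((p : L) ^ m) ^ 2 * H.B x y)
    (hst : ∀ x ∈ H.W a, (H.Fr ^ m) x ∈ H.W a) (x : H.W a) (c : L)
    (h1 : ((H.Fr ^ m).restrict hst - c • 1) (((H.Fr ^ m).restrict hst - c • 1) x) = 0)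
    (h2 : ((H.Fr ^ m).restrict hst - c • 1) x ≠ 0) :
    ∃ y : E, y * F.σ y = -∏ i, (1 - F.ζ ^ (residues a i).val) := by
  obtain ⟨e, v, -, he, hv, hind, hiso, -⟩ := block_data H hp hsim hst x c h1 h2
  obtain ⟨z, hz, hdet⟩ := H.det a hres e v he hv hind
  rw [hiso, mul_zero, zero_sub] at hdet
  obtain ⟨y, hy1, hy2⟩ := B_vec H e fun i => F.σ (v i)
  have hy3 : H.B (vec H.b v) (vec H.b fun i => F.σ (e i)) = algebraMap E L (F.σ y) := by
    rw [H.symm, ← hy2]
    simp only [F.invol]
  rw [hy1, hy3, ← map_mul, ← map_neg] at hdet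
  have h3 := (algebraMap E L).injective hdet
  have hσz : F.σ z ≠ 0 := (map_ne_zero F.σ).2 hz
  refine ⟨y / z, ?_⟩
  rw [map_div₀]
  field_simp
  linear_combination -h3

/-- A Jordan block on a part which a power of Frobenius maps to its dual: minus one is a norm. -/
theorem norm_of_self (H : RationalH2 p F L V) [CharZero L] [FiniteDimensional L V]
    (hp : p ≠ 0) {f m : ℕ} (hm : m = f + f) {a : Fin 5 → ZMod n}
    (hsim : ∀ j x y, H.B ((H.Fr ^ j) x) ((H.Fr ^ j) y) = ((p : L) ^ j) ^ 2 * H.B x y)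
    (hst : ∀ x ∈ H.W a, (H.Fr ^ m) x ∈ H.W a)
    (hneg : ∀ x ∈ H.W a, (H.Fr ^ f) x ∈ H.W (-a)) (hneg' : ∀ x ∈ H.W (-a), (H.Fr ^ f) x ∈ H.W a)
    (x : H.W a) (c : L)
    (h1 : ((H.Fr ^ m).restrict hst - c • 1) (((H.Fr ^ m).restrict hst - c • 1) x) = 0)
    (h2 : ((H.Fr ^ m).restrict hst - c • 1) x ≠ 0) : ∃ y : E, y * F.σ y = -1 := by
  have hp0 : (p : L) ≠ 0 := Nat.cast_ne_zero.2 hp
  have hpow : ∀ y : V, (H.Fr ^ m) y = (H.Fr ^ f) ((H.Fr ^ f) y) := by
    intro y
    rw [hm, pow_add, End.mul_apply]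
  -- the eigenvalue
  have hQ0 : ((p : L) ^ f) ^ 2 ≠ 0 := pow_ne_zero _ (pow_ne_zero _ hp0)
  have hinj : Function.Injective (H.Fr ^ f) := by
    rw [End.coe_pow]
    exact H.injective.iterate _
  have hsurj : ∀ w ∈ H.W (-a), ∃ y ∈ H.W a, (H.Fr ^ f) y = w := by
    intro w hw
    let T : End L (H.W (-a)) := ((H.Fr ^ f) ∘ₗ (H.Fr ^ f)).restrict
      (fun y hy => hneg _ (hneg' y hy))
    have hTi : Function.Injective T := by
      intro y z hyz
      have h := congrArg Subtype.val hyz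
      exact Subtype.ext (hinj (hinj h))
    obtain ⟨y, hy⟩ := LinearMap.injective_iff_surjective.1 hTi ⟨w, hw⟩
    exact ⟨(H.Fr ^ f) (y : V), hneg' _ y.2, congrArg Subtype.val hy⟩
  have htr := Pool.Agent.Helper73.LF.self_trace (T := (H.Fr ^ m).restrict hst)
    (H.B.compl₁₂ (H.W a).subtype ((H.Fr ^ f) ∘ₗ (H.W a).subtype)) hQ0
    (fun y z => by
      change H.B ((H.Fr ^ m) (y : V)) ((H.Fr ^ f) (z : V)) =
        ((p : L) ^ f) ^ 2 * H.B (z : V) ((H.Fr ^ f) (y : V))
      rw [hpow, hsim, H.symm])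
    (fun y hy => Subtype.ext (H.perfect a y y.2 fun w hw => by
      obtain ⟨z, hz, rfl⟩ := hsurj w hw
      exact hy ⟨z, hz⟩)) (H.finrank_le a) h1 h2
  have hc : c = -((p : L) ^ f) ^ 2 := by
    have h3 := Pool.Agent.Helper73.LF.trace_of_sq
      (Pool.Agent.Helper73.LF.sq_all (H.finrank_le a) h1 h2)
    have h4 : finrank L (H.W a) = 2 :=
      le_antisymm (H.finrank_le a) (Pool.Agent.Helper73.LF.two_le h1 h2)
    rw [h4, htr] at h3
    push_cast at h3
    have h5 : (2 : L) ≠ 0 := two_ne_zero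
    apply mul_left_cancel₀ h5
    linear_combination -h3
  obtain ⟨e, v, c0, he, hv, hind, hiso, hc0, hTv, hTσ, hline⟩ :=
    block_data H hp (hsim m) hst x c h1 h2
  have hcE : c0 = -((p : E) ^ f) ^ 2 := by
    apply (algebraMap E L).injective
    rw [hc0, hc]
    simp
  have hσc : F.σ c0 = c0 := by
    rw [hcE]
    simp
  rw [hσc, hc0] at hTσ
  obtain ⟨w, hw1, hw2⟩ := Fr_pow_vec H f v
  have hσw : vec H.b (fun i => F.σ (w i)) ∈ H.W a := by
    have h3 := H.W_neg (-a) w (by rw [← hw1]; exact hneg _ hv)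
    rwa [neg_neg] at h3
  have hTw : (H.Fr ^ m) (vec H.b fun i => F.σ (w i)) = c • vec H.b fun i => F.σ (w i) := by
    rw [← hw2, hpow, ← hpow, ← map_smul, ← hTσ]
    rw [hpow, hpow]
  obtain ⟨β, hβ⟩ := hline _ hσw hTw
  -- the coefficient is rational
  have hv0 : vec H.b v ≠ 0 := by
    intro h0
    rw [LinearIndependent.pair_iff] at hind
    have := hind 0 1 (by rw [h0]; simp)
    exact one_ne_zero this.2
  obtain ⟨i, hi⟩ : ∃ i, v i ≠ 0 := by
    by_contra hcon
    push Not at hcon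
    apply hv0
    simp [vec, hcon]
  have hcoord : ∀ j, algebraMap E L (F.σ (w j)) = β * algebraMap E L (v j) := by
    intro j
    have h3 := congrArg (fun v => H.b.repr v j) hβ
    simp only [map_smul, Finsupp.smul_apply, repr_vec, smul_eq_mul] at h3
    exact h3
  set β0 : E := F.σ (w i) / v i with hβ0
  have hβE : algebraMap E L β0 = β := by
    rw [hβ0, map_div₀, hcoord, mul_div_assoc, div_self, mul_one]
    exact (map_ne_zero _).2 hi
  have hcoord' : ∀ j, F.σ (w j) = β0 * v j := by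
    intro j
    apply (algebraMap E L).injective
    rw [map_mul, hβE, hcoord]
  have hw3 : ∀ j, w j = F.σ β0 * F.σ (v j) := by
    intro j
    rw [← map_mul, ← hcoord', F.invol]
  have hfin : (H.Fr ^ m) (vec H.b v) = algebraMap E L (F.σ β0 * β0) • vec H.b v := by
    have h3 : vec H.b w = algebraMap E L (F.σ β0) • vec H.b fun j => F.σ (v j) := by
      apply H.b.repr.injective
      ext j
      rw [map_smul, Finsupp.smul_apply, repr_vec, repr_vec, hw3, map_mul, smul_eq_mul]
    rw [hpow, hw1, h3, map_smul, hw2, hβ, map_mul, hβE, smul_smul]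
  have h5 : c = algebraMap E L (F.σ β0 * β0) := by
    have h6 : c • vec H.b v = algebraMap E L (F.σ β0 * β0) • vec H.b v := by rw [← hTv, hfin]
    exact smul_left_injective L hv0 h6
  have h6 : F.σ β0 * β0 = -((p : E) ^ f) ^ 2 := by
    rw [← hcE]
    apply (algebraMap E L).injective
    rw [hc0, ← h5]
  have : CharZero E := (algebraMap E L).charZero
  have hpE : (p : E) ≠ 0 := Nat.cast_ne_zero.2 hp
  refine ⟨β0 / (p : E) ^ f, ?_⟩
  rw [map_div₀, map_pow, map_natCast]
  field_simp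
  linear_combination h6

end

end Pool.Agent.Helper41.RX
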